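import Pool.Agent.Helper15.ZF.LowDeg

/-! # The condition on the degrees, one prime at a time -/

set_option autoImplicit false

namespace ZF

/-- The condition on the degrees `d i` of `r` forms in `n + 1` variables under which every function
on a curve over a function field of one variable over a finite field is a product of norms from
fields over which the forms have a common zero.  The first alternative is the Tsen-Lang condition
for the `l`-primary index, for every prime `l`. -/
def LiftDeg2 (n : ℕ) {r : ℕ} (d : Fin r → ℕ) : Prop :=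
  (∀ l : ℕ, l.Prime → ∑ i, d i ^ 2 * l ^ padicValNat l (d i) ≤ n) ∨
  (∃ i, 2 ≤ d i ∧ d i ^ 3 + 2 * ∑ j ∈ Finset.univ.erase i, d j ^ 3 ≤ 2 * n + 1 ∧
    ∑ j ∈ Finset.univ.erase i, (d j ^ 3 + 2 * ∑ k ∈ Finset.range (d j), k ^ 3) ≤ n) ∨
  (∀ i, d i = 2) ∧ 4 * r ≤ n ∧ 10 * r ≤ n + 18

end ZF
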