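import Mathlib

/-! # The cost of a degree at a prime number -/

set_option autoImplicit false

namespace ZF

/-- `m ^ 2` times the `l`-part of `m` -/
def cst (l m : ℕ) : ℕ := m ^ 2 * l ^ padicValNat l m

end ZF
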