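import Pool.Agent.Helper15.ZF.Defs

/-! # Families with a section -/

set_option autoImplicit false

open MvPolynomial ZC

namespace ZF

universe u

variable {K : Type u} [Field K] {V ι R : Type} {p : V → ι} {n r : ℕ}

/-- The projection of `X` to `B` has a section given by polynomials in the coordinates of `B`. -/
def HasSec (X : MVar K (addBlock n p) (Fin r ⊕ R)) (B : MVar K p R) : Prop :=
  ∃ s : Fin (n + 1) → MvPolynomial V K, ∀ (L : Type u) [Field L] [Algebra K L] (y : V → L),
    B.IsPt y → X.IsPt (Sum.elim (fun i => aeval y (s i)) y)

end ZF
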