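import Pool.Agent.Helper72.FU.Deg2
import Pool.Agent.Helper63.ZF.FibEq
import Pool.Agent.Helper91.BD.ChainSys
import Pool.Agent.Helper25.BD.Loc4
import Pool.Agent.Helper74.BDX.Level0
import Pool.Agent.Helper99.BD.ChainLink
import Pool.Agent.Helper99.BD.Final

/-!
# Function fields of one variable over finite fields and their completions
-/

set_option autoImplicit false

open MvPolynomial ZC

namespace ZF

universe u

/-- The properties of function fields of one variable over finite fields and of their completions
which are used for zero-cycles on families of complete intersections. -/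
structure Good (K : Type u) [Field K] : Prop where
  c2 : C2 K
  wtl : ∀ l : ℕ, l.Prime → WTLup l K
  link : ∀ {r : ℕ} (n : ℕ) (d : Fin r → ℕ), (∀ i, 0 < d i) → ∑ i, d i ^ 2 ≤ n →
    ∀ (L : Type u) [Field L] [Algebra K L] [FiniteDimensional K L], Linkable L n d

theorem _root_.ZC.IsCurveField.good {F k : Type u} [Field F] [Finite F] [Field k] [Algebra F k]
    (hk : IsCurveField F k) : Good k where
  c2 := hk.c2
  wtl _ hl := hk.wtlup' hl
  link _ d hd hn L _ _ _ := by
    refine hk.linkable (fun _ hl => ?_) (fun _ _ D _ => chainSystems hd D) L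
    obtain ⟨Fl, _, _, h1, -, h2⟩ := exists_chainZero F hl d hd hn
    exact ⟨Fl, inferInstance, inferInstance, h1, h2⟩

theorem _root_.ZC.Place.good {F k : Type u} [Field F] [Finite F] [Field k] [Algebra F k]
    (hk : IsCurveField F k) (v : Place F k) : Good v.Completion where
  c2 := v.c2 hk
  wtl _ hl := Place.wtlup hk v hl
  link _ d hd hn L _ _ _ :=
    linkable_of_finite (fun _ hl => Place.chainUp hk v fun κ _ _ => exists_chainZero κ hl d hd hn)
      (fun _ _ D _ => chainSystems hd D) L

/-- Two points of the same fibre are rationally equivalent. -/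
theorem fibre_equiv2 {K : Type u} [Field K] (hK : Good K) {V ι R : Type} [Finite V] {p : V → ι}
    {n r : ℕ} {X : MVar K (addBlock n p) (Fin r ⊕ R)} {B : MVar K p R} (h : X.IsOver B)
    {L : Type u} [Field L] [Algebra K L] [FiniteDimensional K L]
    (hd : ∀ i, 0 < X.deg (Sum.inl i) none) (hn : ∑ i, X.deg (Sum.inl i) none ^ 2 ≤ n)
    (x x' : Fin (n + 1) → L) (y : V → L) (hx : X.IsPt (Sum.elim x y))
    (hx' : X.IsPt (Sum.elim x' y)) :
    ptCycle X (Sum.elim x y) hx - ptCycle X (Sum.elim x' y) hx' ∈ ratEquiv X :=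
  fib_incl h x x' y hx hx'
    (equiv_of_linkable (fib X y) (hK.link n (fib X y).d hd hn L) x x' (fib_isPt hx) (fib_isPt hx'))

theorem LiftDeg2.sum_sq_le {n r : ℕ} {d : Fin r → ℕ} (h : LiftDeg2 n d) :
    ∑ i, d i ^ 2 ≤ n := by
  rcases h with h | h
  · refine le_trans (Finset.sum_le_sum fun i _ => ?_) (h 2 Nat.prime_two)
    exact Nat.le_mul_of_pos_right _ (pow_pos two_pos _)
  · exact LiftDeg.sum_sq_le (Or.inr h)

end ZF
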