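import Pool.Agent.Helper91.ZF.Split
import Pool.Agent.Helper99.BD.Defs
import Pool.Agent.Helper72.FU.Deg3

/-!
# Norms for systems of forms: costs
-/

set_option autoImplicit false

open Polynomial ZC Pool.Agent.Helper91.ZC

namespace ZF

universe u

/-- systems of forms of degrees `eᵢ ≥ 1` in more than `∑ c eᵢ` variables have a common zero -/
def HasCost (c : ℕ → ℕ) (K : Type*) [Field K] : Prop :=
  ∀ (ι σ : Type) [Fintype ι] [Fintype σ] (f : ι → MvPolynomial σ K) (e : ι → ℕ),
    (∀ i, (f i).IsHomogeneous (e i)) → (∀ i, 0 < e i) → ∑ i, c (e i) < Fintype.card σ →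
    ∃ x : σ → K, x ≠ 0 ∧ ∀ i, MvPolynomial.eval x (f i) = 0

theorem cst_zero (l : ℕ) : cst l 0 = 0 := by
  unfold cst
  rw [zero_pow two_ne_zero, zero_mul]

theorem cst_one (l : ℕ) : cst l 1 = 1 := by
  unfold cst
  rw [padicValNat_one_right, pow_zero, one_pow, mul_one]

theorem sq_le_cst {l : ℕ} (hl : l.Prime) (m : ℕ) : m ^ 2 ≤ cst l m :=
  Nat.le_mul_of_pos_right _ (pow_pos hl.pos _)

theorem cst_le {l m : ℕ} (hm : 0 < m) : cst l m ≤ m ^ 3 := by
  unfold cst
  rw [pow_succ m 2]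
  exact Nat.mul_le_mul_left _ (Nat.le_of_dvd hm pow_padicValNat_dvd)

theorem hasCost_of_wtl {l : ℕ} {K : Type u} [Field K] (h : WTL l 2 K) :
    HasCost (cst l) K := by
  intro ι σ _ _ f e hf he hn
  refine h ι σ e (fun _ => 1) f hf he (fun _ => one_pos) ?_
  have h1 : wcost l 2 1 = 1 := cst_one l
  simp only [h1, Finset.sum_const, Finset.card_univ, smul_eq_mul, mul_one]
  exact hn

theorem HasCost.hasC {l : ℕ} {K : Type u} [Field K] (h : HasCost (cst l) K) : HasC 3 K := by
  intro ι σ _ _ f e hf he hn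
  exact h ι σ f e hf he (lt_of_le_of_lt (Finset.sum_le_sum fun i _ => cst_le (he i)) hn)

theorem sum_costs {c : ℕ → ℕ} (hc0 : c 0 = 0) (e : ℕ) (he : 0 < e) :
    ∑ k ∈ Finset.range e, c k = ∑ k : Fin (e - 1), c ((k : ℕ) + 1) := by
  obtain ⟨e, rfl⟩ : ∃ e', e = e' + 1 := ⟨e - 1, by omega⟩
  rw [Finset.sum_range_succ', Nat.add_sub_cancel, Finset.sum_range, hc0, add_zero]

section split

variable {E : Type u} [Field E]

/-- **Norms for one form and forms of low degree.** -/
theorem NormSet.of_splitC {c : ℕ → ℕ} {E : Type u} [Field E] (hE : HasCost c E) (hc1 : c 1 = 1)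
    (hc2 : ∀ m, 0 < m → 1 ≤ c m) (hc3 : ∀ m, 2 ≤ m → 2 ≤ c m) (hc0 : c 0 = 0) {n r : ℕ} (d : Fin r → ℕ) (hd : ∀ i, 0 < d i)
    (i₀ : Fin r) (h2 : 2 ≤ d i₀)
    (h1 : c (d i₀) + 2 * ∑ j ∈ Finset.univ.erase i₀, c (d j) ≤ 2 * n + 1)
    (h3 : ∑ j ∈ Finset.univ.erase i₀, (c (d j) + 2 * ∑ k ∈ Finset.range (d j), c k) ≤ n)
    (f : Fin r → MvPolynomial (Fin (n + 1)) E) (hf : ∀ i, (f i).IsHomogeneous (d i))
    {S : Set E} (hS : NormSet f S) (g : E) (hg : g ≠ 0) : g ∈ S := by
  classical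
  by_cases hpt : ∃ x : Fin (n + 1) → E, x ≠ 0 ∧ ∀ i, MvPolynomial.aeval x (f i) = 0
  · obtain ⟨x, hx, h⟩ := hpt
    exact hS.of_point hx h g hg
  have hpt' : ∀ x : Fin (n + 1) → E, x ≠ 0 → (∀ j, j ≠ i₀ → MvPolynomial.eval x (f j) = 0) →
      MvPolynomial.eval x (f i₀) ≠ 0 := by
    intro x hx h h0
    refine hpt ⟨x, hx, fun i => ?_⟩
    rw [MvPolynomial.aeval_eq_eval]
    by_cases hi : i = i₀
    · rw [hi]
      exact h0
    · exact h i hi
  have hsub : ∀ F : Fin r → ℕ, ∑ j ∈ Finset.univ.erase i₀, F j = ∑ j : {j // j ≠ i₀}, F j := by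
    intro F
    exact Finset.sum_subtype _ (fun j => by simp) F
  rw [hsub] at h1 h3
  have h3' : ∑ j : {j // j ≠ i₀}, c (d j) +
      2 * ∑ j : {j // j ≠ i₀}, ∑ k : Fin (d j - 1), c ((k : ℕ) + 1) ≤ n := by
    rw [Finset.mul_sum, ← Finset.sum_add_distrib]
    refine le_trans (le_of_eq (Finset.sum_congr rfl fun j _ => ?_)) h3
    rw [sum_costs hc0 _ (hd j)]
  -- the two points
  obtain ⟨y, hy0, hy⟩ := hE (Unit ⊕ ({j : Fin r // j ≠ i₀} ⊕ {j : Fin r // j ≠ i₀}))
    (Fin (n + 1) ⊕ Fin (n + 1))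
    (Sum.elim (fun _ => MvPolynomial.rename Sum.inl (f i₀) -
      MvPolynomial.C g * MvPolynomial.rename Sum.inr (f i₀))
      (Sum.elim (fun j => MvPolynomial.rename Sum.inl (f j))
        (fun j => MvPolynomial.rename Sum.inr (f j))))
    (Sum.elim (fun _ => d i₀) (Sum.elim (fun j => d j) (fun j => d j)))
    (by
      rintro (q | q | q)
      · refine ((hf i₀).rename_isHomogeneous).sub ?_
        have h4 := (MvPolynomial.isHomogeneous_C (Fin (n + 1) ⊕ Fin (n + 1)) g).mul
          ((hf i₀).rename_isHomogeneous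
            (f := (Sum.inr : Fin (n + 1) → Fin (n + 1) ⊕ Fin (n + 1))))
        rwa [zero_add] at h4
      · exact (hf _).rename_isHomogeneous
      · exact (hf _).rename_isHomogeneous)
    (by
      rintro (q | q | q)
      · exact hd _
      · exact hd _
      · exact hd _)
    (by
      simp only [Fintype.sum_sum_type, Sum.elim_inl, Sum.elim_inr, Finset.univ_unique,
        Finset.sum_singleton, Fintype.card_sum, Fintype.card_fin]
      omega)
  set x : Fin (n + 1) → E := fun k => y (Sum.inl k) with hx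
  set w : Fin (n + 1) → E := fun k => y (Sum.inr k) with hw
  have hxw : MvPolynomial.eval x (f i₀) = g * MvPolynomial.eval w (f i₀) := by
    have h4 := hy (Sum.inl ())
    rw [Sum.elim_inl, map_sub, map_mul, MvPolynomial.eval_C, MvPolynomial.eval_rename,
      MvPolynomial.eval_rename, sub_eq_zero] at h4
    exact h4
  have hxj : ∀ j, j ≠ i₀ → MvPolynomial.eval x (f j) = 0 := by
    intro j hj
    have h4 := hy (Sum.inr (Sum.inl ⟨j, hj⟩))
    rw [Sum.elim_inr, Sum.elim_inl, MvPolynomial.eval_rename] at h4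
    exact h4
  have hwj : ∀ j, j ≠ i₀ → MvPolynomial.eval w (f j) = 0 := by
    intro j hj
    have h4 := hy (Sum.inr (Sum.inr ⟨j, hj⟩))
    rw [Sum.elim_inr, Sum.elim_inr, MvPolynomial.eval_rename] at h4
    exact h4
  have hz0 : MvPolynomial.eval 0 (f i₀) = 0 := by
    have h4 := eval_smul (hf i₀) (0 : E) 0
    rw [smul_zero, zero_pow (hd i₀).ne', zero_mul] at h4
    exact h4
  have hw0 : w ≠ 0 := by
    intro h0
    have hx0 : x ≠ 0 := by
      intro h4
      apply hy0
      funext k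
      rcases k with k | k
      · exact congrFun h4 k
      · exact congrFun h0 k
    apply hpt' x hx0 hxj
    rw [hxw, h0, hz0, mul_zero]
  have hw1 := hpt' w hw0 hwj
  have hx1 : MvPolynomial.eval x (f i₀) ≠ 0 := by
    rw [hxw]
    exact mul_ne_zero hg hw1
  have hx0 : x ≠ 0 := by
    intro h0
    apply hx1
    rw [h0]
    exact hz0
  -- powers
  have hpow : ∀ u : E, u ≠ 0 → u ^ d i₀ ∈ S := by
    obtain ⟨k₀, hk₀⟩ := Function.ne_iff.1 hx0
    obtain ⟨v, hv0, hv⟩ := hE (Unit ⊕ ({j : Fin r // j ≠ i₀} ⊕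
      (Σ j : {j : Fin r // j ≠ i₀}, Fin (d j - 1)))) (Fin (n + 1))
      (Sum.elim (fun _ => MvPolynomial.X k₀) (Sum.elim (fun j => f j)
        (fun q => (genLine x (f q.1)).coeff ((q.2 : ℕ) + 1))))
      (Sum.elim (fun _ => 1) (Sum.elim (fun j => d j) (fun q => (q.2 : ℕ) + 1)))
      (by
        rintro (q | q | q)
        · exact MvPolynomial.isHomogeneous_X _ _
        · exact hf _
        · exact graded_genLine _ _ _)
      (by
        rintro (q | q | q)
        · exact Nat.one_pos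
        · exact hd _
        · exact Nat.succ_pos _)
      (by
        simp only [Fintype.sum_sum_type, Sum.elim_inl, Sum.elim_inr, Finset.univ_unique,
          Finset.sum_singleton, Fintype.card_fin, Fintype.sum_sigma, hc1]
        by_cases hall : ∀ j : {j : Fin r // j ≠ i₀}, d j = 1
        · have e1 : ∀ j : {j : Fin r // j ≠ i₀},
              ∑ k : Fin (d j - 1), c ((k : ℕ) + 1) = 0 := by
            intro j
            have h4 : IsEmpty (Fin (d j - 1)) := by
              rw [hall j]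
              exact Fin.isEmpty
            exact Finset.sum_of_isEmpty _
          simp only [e1, Finset.sum_const_zero]
          have e2 : 2 ≤ c (d i₀) := hc3 _ h2
          omega
        · push Not at hall
          obtain ⟨j, hj⟩ := hall
          have h4 : 1 ≤ ∑ k : Fin (d j - 1), c ((k : ℕ) + 1) := by
            have h5 : 0 < d j - 1 := by
              have := hd j
              omega
            refine le_trans ?_ (Finset.single_le_sum (fun _ _ => Nat.zero_le _)
              (Finset.mem_univ (⟨0, h5⟩ : Fin (d j - 1))))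
            exact hc2 _ (Nat.succ_pos _)
          have h5 : ∑ k : Fin (d j - 1), c ((k : ℕ) + 1) ≤
              ∑ j : {j : Fin r // j ≠ i₀}, ∑ k : Fin (d j - 1), c ((k : ℕ) + 1) :=
            Finset.single_le_sum (f := fun j : {j : Fin r // j ≠ i₀} =>
              ∑ k : Fin (d j - 1), c ((k : ℕ) + 1)) (fun _ _ => Nat.zero_le _)
              (Finset.mem_univ j)
          omega)
    have hvk : v k₀ = 0 := by
      have h4 := hv (Sum.inl ())
      rwa [Sum.elim_inl, MvPolynomial.eval_X] at h4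
    have hvj : ∀ j, j ≠ i₀ → MvPolynomial.eval v (f j) = 0 := fun j hj =>
      hv (Sum.inr (Sum.inl ⟨j, hj⟩))
    have hxv : x ∉ Submodule.span E {v} := by
      intro h0
      obtain ⟨a, ha⟩ := Submodule.mem_span_singleton.1 h0
      apply hk₀
      rw [← ha, Pi.smul_apply, hvk, smul_zero]
      rfl
    exact (hS.of_two_points hf i₀ hxv (fun j hj => onLine_eq_zero (hf j) (hxj j hj) (hvj j hj)
      fun k => hv (Sum.inr (Sum.inr ⟨⟨j, hj⟩, k⟩))) hx1 (hpt' v hv0 hvj)).2
  -- the third point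
  obtain ⟨z, hz0, hz⟩ := hE ({j : Fin r // j ≠ i₀} ⊕
    ((Σ j : {j : Fin r // j ≠ i₀}, Fin (d j - 1)) ⊕
      (Σ j : {j : Fin r // j ≠ i₀}, Fin (d j - 1)))) (Fin (n + 1))
    (Sum.elim (fun j => f j) (Sum.elim (fun q => (genLine x (f q.1)).coeff ((q.2 : ℕ) + 1))
      (fun q => (genLine w (f q.1)).coeff ((q.2 : ℕ) + 1))))
    (Sum.elim (fun j => d j) (Sum.elim (fun q => (q.2 : ℕ) + 1) (fun q => (q.2 : ℕ) + 1)))
    (by
      rintro (q | q | q)
      · exact hf _
      · exact graded_genLine _ _ _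
      · exact graded_genLine _ _ _)
    (by
      rintro (q | q | q)
      · exact hd _
      · exact Nat.succ_pos _
      · exact Nat.succ_pos _)
    (by
      simp only [Fintype.sum_sum_type, Sum.elim_inl, Sum.elim_inr, Fintype.card_fin,
        Fintype.sum_sigma]
      omega)
  have hzj : ∀ j, j ≠ i₀ → MvPolynomial.eval z (f j) = 0 := fun j hj => hz (Sum.inl ⟨j, hj⟩)
  have hz1 := hpt' z hz0 hzj
  have e1 := hS.of_ratio hf i₀ hx0 hpow (fun j hj => onLine_eq_zero (hf j) (hxj j hj) (hzj j hj)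
    fun k => hz (Sum.inr (Sum.inl ⟨⟨j, hj⟩, k⟩))) hx1 hz1
  have e2 := hS.of_ratio hf i₀ hw0 hpow (fun j hj => onLine_eq_zero (hf j) (hwj j hj) (hzj j hj)
    fun k => hz (Sum.inr (Sum.inr ⟨⟨j, hj⟩, k⟩))) hw1 hz1
  have e3 := hS.mul _ _ e1 (hS.inv _ e2)
  have e4 : MvPolynomial.eval x (f i₀) / MvPolynomial.eval z (f i₀) *
      (MvPolynomial.eval w (f i₀) / MvPolynomial.eval z (f i₀))⁻¹ = g := by
    rw [hxw]
    field_simp
  rwa [e4] at e3

end split

/-- A nonsquare stays one after extensions of odd degree. -/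
theorem exists_nonsquare_up {E Ω : Type u} [Field E] [Field Ω] [Algebra E Ω]
    (hO : PrimeTo 2 E Ω) (h : ∃ h : E, ¬ IsSquare h) : ∃ h : Ω, ¬ IsSquare h := by
  obtain ⟨a, ha⟩ := h
  refine ⟨algebraMap E Ω a, ?_⟩
  rintro ⟨s, hs⟩
  obtain ⟨M, hM, hfin, -, hcop⟩ := hO {s}
  have hsM : s ∈ M := hM (by simp)
  have hint : IsIntegral E s := by
    have : IsIntegral E (⟨s, hsM⟩ : M) := Algebra.IsIntegral.isIntegral _
    exact this.map M.val
  have h1 : Module.finrank E (IntermediateField.adjoin E {s}) ∣ Module.finrank E M := by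
    have h2 : IntermediateField.adjoin E {s} ≤ M := by
      rw [IntermediateField.adjoin_le_iff]
      simpa using hsM
    exact IntermediateField.finrank_dvd_of_le_right h2
  rw [IntermediateField.adjoin.finrank hint] at h1
  have h3 : (minpoly E s).natDegree ≤ 2 := by
    have h4 : Polynomial.aeval s (X ^ 2 - C a : E[X]) = 0 := by
      rw [map_sub, map_pow, aeval_X, aeval_C, hs]
      ring
    have h5 := minpoly.min E s (monic_X_pow_sub_C a two_ne_zero) h4
    have h6 := natDegree_le_natDegree h5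
    rwa [natDegree_X_pow_sub_C] at h6
  have h7 : (minpoly E s).natDegree ≠ 2 := by
    intro h8
    rw [h8] at h1
    have h9 : 2 ∣ Nat.gcd (Module.finrank E M) 2 := Nat.dvd_gcd h1 dvd_rfl
    rw [hcop] at h9
    omega
  have h8 := minpoly.natDegree_pos hint
  have h9 : (minpoly E s).natDegree = 1 := by omega
  obtain ⟨b, hb⟩ := minpoly.mem_range_of_degree_eq_one E s
    ((degree_eq_iff_natDegree_eq_of_pos one_pos).2 h9)
  refine ha ⟨b, (algebraMap E Ω).injective ?_⟩
  rw [map_mul, hb, hs]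

end ZF
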