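import Pool.Agent.Helper72.FU.Good
import Pool.Agent.Helper72.FU.Fam
import Pool.Agent.Helper72.FU.Split
import Pool.Agent.Helper55.BD.OmegaNorm
import Pool.Agent.Helper15.ZF.Section
import Pool.Agent.Helper15.ZF.BC

/-! # Families with a section -/

set_option autoImplicit false

open MvPolynomial ZC

namespace ZF

universe u

section lift

variable {K : Type u} [Field K] {V ι R : Type} {p : V → ι} {n r : ℕ}
  {X : MVar K (addBlock n p) (Fin r ⊕ R)} {B : MVar K p R}

theorem isPt_bc_iff {K : Type u} [Field K] {V ι R : Type} {p : V → ι} (X : MVar K p R)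
    (L M : Type u) [Field L] [Field M] [Algebra K L] [Algebra L M] [Algebra K M]
    [IsScalarTower K L M] (y : V → M) : (X.bc L).IsPt y ↔ X.IsPt y := by
  have h : ∀ i, aeval y ((X.bc L).form i) = aeval y (X.form i) := fun i => by
    rw [MVar.bc, aeval_map_algebraMap]
  unfold MVar.IsPt
  simp only [h]

theorem HasSec.bc (h : HasSec X B) (L : Type u) [Field L] [Algebra K L] :
    HasSec (X.bc L) (B.bc L) := by
  obtain ⟨s, hs⟩ := h
  refine ⟨fun i => MvPolynomial.map (algebraMap K L) (s i), fun M _ _ y hy => ?_⟩
  let _ : Algebra K M := ((algebraMap L M).comp (algebraMap K L)).toAlgebra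
  have : IsScalarTower K L M := IsScalarTower.of_algebraMap_eq fun a => rfl
  have h2 := hs M y ((isPt_bc_iff B L M y).1 hy)
  refine (isPt_bc_iff X L M _).2 ?_
  have e : ∀ i, aeval y (MvPolynomial.map (algebraMap K L) (s i)) = aeval y (s i) :=
    fun i => aeval_map_algebraMap _ _ _
  simp only [e]
  exact h2

/-- The elements of `S` if the forms have a common zero. -/
theorem NormSet.of_zero {E : Type u} [Field E] {σ ι : Type} {f : ι → MvPolynomial σ E}
    {S : Set E} (hS : NormSet f S) (x : σ → E) (hx0 : x ≠ 0)
    (hx : ∀ i, aeval x (f i) = 0) {g : E} (hg : g ≠ 0) : g ∈ S := by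
  have h1 := hS.poly (Polynomial.X + Polynomial.C g) (by simpa using hg)
    (fun M _ _ _ t _ => ⟨fun i => algebraMap E M (x i), fun h0 => hx0 (funext fun i =>
      (_root_.map_eq_zero (algebraMap E M)).1 (congrFun h0 i)), fun i => by
        have h2 := MvPolynomial.aeval_algebraMap_apply (R := E) M x (f i)
        refine h2.trans ?_
        rw [hx, map_zero]⟩)
  rwa [Polynomial.coeff_add, Polynomial.coeff_X_zero, Polynomial.coeff_C_zero, zero_add,
    Polynomial.leadingCoeff_X_add_C, div_one] at h1

end lift

end ZF
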